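import Pool.Agent.U536.DS.F
import Pool.Agent.Results.MP_5317dd_nt.MultiplicativeValues

/-!
# Wiggin's maps: the orbits of all integers near the integral combinations of two divisors of a value of a multiplicative
function

Let `f` be a positive multiplicative function of at most polynomial growth such that `f p ≤ M p` for the large primes `p`,
with different values at different large primes; for example Euler's function or the sum of the divisors. Let `G` have steps
bounded below by a positive constant and growth at most `v^d`, for example `α v^d`. Let `b < 1` and `0 ≤ c < 2 b - 1`. For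
all `m ≤ N` but `N exp (-(log N)^c)`, for EVERY integer `w ≥ exp ((log N)^b)` of the form `w = u s + v t` with divisors `s`,
`t` of `f(m)` and integers `|u|, |v| ≤ exp ((log N)^θ)`, the orbit of EVERY integer `n ≥ 1` with `|n - G w| ≤ w ^ κ` under
Wiggin's map `F_D` comes down to a value `≤ n ^ η`, if `D ≥ 2`, `0 < η ≤ 1`, `κ ≥ 0` and `d (1 - η / (30 D log D)) + κ < 1`,
`θ < b`. The integers `w` include all large divisors of `f(m)` and the large sums and differences of ANY two divisors of
`f(m)`; for Euler's function, those of the orders of any two units modulo `m`.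

Proof. Write `m = k u` with `u` squarefree and composed of primes larger than `N^(1/J)`, `J = (log N)^a`, and `k ≤ exp (4
(log N)^a)`; this is possible for all `m ≤ N` but very few. If `v ∣ f(k) f(u)`, then `v = g v'` with `g ∣ f(k)` and `v' ∣ ∏
f(p)`, and the number of such `u ≤ N / k` is at most `N / (k v')` times `(log N)^O(J)` times the number `τ_J(v')` of the
ordered factorizations of `v'` into `J` factors. Take for `v` the least common multiple of `s` and `t`: the sum of `1 / [s,
t]` over the pairs `s, t ≤ X` with `u s + v t = w` is at most `4 U (1 + log X) τ(w) / w` if `|u|, |v| ≤ U`; the inequality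
`τ_J^q ≤ τ_K` for `K ≥ J^q` and Hölder's inequality bound the sum over the pairs with exceptional `w`. The integers of the
hand-in `CommonFactors` of this page have a large common factor with `f(m)`; the sums and differences of two divisors of
`f(m)` have in general none. The file `MultiplicativeValues` of the starting library treats the integers `w = f(m)` only,
with `N / (log N)^U` exceptions.
-/

set_option autoImplicit false

namespace Pool.Agent.Results.MP_5317dd_nt.DivisorSums

open Finset
open Pool.Agent.N733.TG (LM Expanding lm_totient lm_sigma expanding_pow)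
open Pool.Agent.U536.DS (Comb comb_good_nat_unif comb_pm comb_orders)
open Pool.Agent.Results.MP_5317dd_nt.MultiplicativeValues (ComesDown cpos count)

/-- **Wiggin's maps: the orbits of all integers near the integral combinations of two divisors of a value of a multiplicative
function.** Let `f` be multiplicative and positive, of at most polynomial growth, with `f p ≤ M p` at the large primes, and
injective there. Let `G` have steps `≥ a > 0` and growth at most `v^d`. Let `b < 1` and `0 ≤ c < 2 b - 1`, `D ≥ 2`, `0 < η ≤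
1`, `κ ≥ 0` and `d (1 - η / (30 D log D)) + κ < 1`, `θ < b`. For all large `N`, for all `m ≤ N` but `N exp (-(log N)^c)`,
for EVERY integer `w ≥ exp ((log N)^b)` of the form `w = u s + v t` with divisors `s`, `t` of `f(m)` and integers `|u|, |v|
≤ exp ((log N)^θ)`, the orbit of EVERY integer `n ≥ 1` with `|n - G w| ≤ w ^ κ` under Wiggin's map `F_D` comes down to a
value `≤ n ^ η`. All the sums and differences `≥ exp ((log N)^b)` of two divisors of `f(m)` are such integers `w`, and for
Euler's function those of the orders of two units modulo `m`. Euler's function and the sum of the divisors are examples of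
`f`, and `α v^d` with `α > 0`, `d ≥ 1` is an example of `G`. -/
theorem result :
    (∀ f : ℕ → ℕ, LM f → ∀ (G : ℕ → ℝ) (d : ℝ), Expanding G d → ∀ (D : ℕ) (η κ θ b c : ℝ), 2 ≤ D → 0 < η → η ≤ 1 → 0 ≤ κ →
      d * (1 - 1 / (30 * (D : ℝ) * Real.log D) * η) + κ < 1 → θ < b → b < 1 → 0 ≤ c → c < 2 * b - 1 →
      ∃ N₀ : ℕ, ∀ N : ℕ, N₀ ≤ N →
        ({m : ℕ | 1 ≤ m ∧ m ≤ N ∧ ¬ ∀ w : ℕ, Comb f b θ N m w → ∀ n : ℕ, 1 ≤ n → |(n : ℝ) - G w| ≤ (w : ℝ) ^ κ →
          ComesDown D η n}.ncard : ℝ) ≤ N * Real.exp (-(Real.log N ^ c))) ∧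
    (LM Nat.totient ∧ LM (fun m => ∑ d ∈ m.divisors, d)) ∧
    (∀ α d : ℝ, 0 < α → 1 ≤ d → Expanding (fun v => α * (v : ℝ) ^ d) d) ∧
    (∀ (f : ℕ → ℕ) (b θ : ℝ) (N m s t : ℕ), s ∣ f m → t ∣ f m →
      (Real.exp (Real.log N ^ b) ≤ ((s + t : ℕ) : ℝ) → Comb f b θ N m (s + t)) ∧
      (Real.exp (Real.log N ^ b) ≤ ((s - t : ℕ) : ℝ) → Comb f b θ N m (s - t)) ∧
      (Real.exp (Real.log N ^ b) ≤ (s : ℝ) → Comb f b θ N m s)) ∧
    ∀ (b θ : ℝ) (N m : ℕ) (x y : (ZMod m)ˣ),
      (Real.exp (Real.log N ^ b) ≤ ((orderOf x + orderOf y : ℕ) : ℝ) → Comb Nat.totient b θ N m (orderOf x + orderOf y)) ∧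
      (Real.exp (Real.log N ^ b) ≤ ((orderOf x - orderOf y : ℕ) : ℝ) → Comb Nat.totient b θ N m (orderOf x - orderOf y)) := by
  refine ⟨?_, ⟨lm_totient, lm_sigma⟩, fun α d hα hd => expanding_pow hα hd, fun f b θ N m s t hs ht => comb_pm hs ht,
    fun b θ N m x y => comb_orders x y⟩
  intro f hf G d hG D η κ θ b c hD hη hη1 hκ h1 hθ hb hc hcb
  obtain ⟨hc0, hc1⟩ := cpos hD
  obtain ⟨K, hK⟩ := count D hD η hη hη1
  obtain ⟨N₀, hN₀⟩ := comb_good_nat_unif hf hG
    (s := 1 - 1 / (30 * (D : ℝ) * Real.log D) * η) (by nlinarith) hκ h1 hθ hb hc hcb K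
  refine ⟨N₀, fun N hN => ?_⟩
  refine le_trans (le_of_eq ?_) (hN₀ (fun n : ℕ => ¬ ComesDown D η n) hK N hN)
  congr 2
  ext m
  simp only [Set.mem_ofPred_eq]
  push Not
  rfl

end Pool.Agent.Results.MP_5317dd_nt.DivisorSums
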