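import Pool.Agent.U491.LR.Wi2
import Pool.Agent.U491.LR.W

set_option autoImplicit false

/-!
# Wiggin's maps: the law of growth along linear recurrences and spread sequences

Let `D ≥ 2` and `γ = (D log D - (D - 1) log (D + 1)) / (2 D - 1) > 0`. For almost all the terms `x` of a window
of length `N` of a fast growing linear recurrence with last coefficient prime to `D`, for example for the
Fibonacci numbers or the powers of an `r` prime to `D`, `log F_D^(k)(x) = log x - γ k + O(ε log N)` for ALL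
`k ≤ (2 D - 1) log N / (D log D)`; the number of exceptions is at most `K N^(1 - δ)`. The same law holds, with
`c' log N` in place of `log N`, for all smooth sequences which are constant on no arithmetic progression and
for all families of sequences which are spread modulo the powers of `D`, for example for the primes. The
terms of such a sequence can grow exponentially, and so this does not follow from a bound for the number of
exceptional integers.

Method. One step of the accelerated map `G` is one or two steps of `F_D`. Large deviations for the residues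
modulo `D` of the first terms of the `G`-orbit, the distribution of smooth sequences modulo the powers of
`D`, and, for the passage from `G` to `F_D`, a count of the multiplications among the first `j` steps for
every `j`, which follows from the law for `G` since the orbit stays large.
-/

namespace Pool.Agent.Results.MP_5317dd_nt.LawOfGrowth

open Filter

/-- Wiggin's map `F_D` -/
def F (D x : ℕ) : ℕ :=
  if x % D = 0 then x / D else if x % D = D - 1 then (D + 1) * x + 1 else (D + 1) * x - x % D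

/-- `γ = (D log D - (D - 1) log (D + 1)) / (2 D - 1)` -/
noncomputable def gamma (D : ℕ) : ℝ := ((D : ℝ) * Real.log D - (D - 1) * Real.log (D + 1)) / (2 * D - 1)

/-- `κ = 1 - (D - 1) / D * log (D + 1) / log D` -/
noncomputable def kappa (D : ℕ) : ℝ := 1 - ((D : ℝ) - 1) / D * (Real.log (D + 1) / Real.log D)

/-- The law of growth up to the time `(2 D - 1) log Y / (D log D)`, with error `ε log Y`: for all `k` up to
this bound, `|log F_D^(k)(x) - log x + γ k| ≤ ε log Y`. -/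
def Law (D : ℕ) (ε Y : ℝ) (x : ℕ) : Prop :=
  ∀ k : ℕ, (k : ℝ) * (D * Real.log D) ≤ (2 * D - 1) * Real.log Y →
    |Real.log ((F D)^[k] x : ℕ) - Real.log x + gamma D * k| ≤ ε * Real.log Y

/-- The linear recurrence `u (n + k) = c 0 u (n) + ... + c (k - 1) u (n + k - 1)` with `c 0` prime to `D`. -/
def CoprimeRec (D : ℕ) (u : ℕ → ℤ) : Prop :=
  ∃ (k : ℕ) (c : ℕ → ℤ), 1 ≤ k ∧ IsCoprime (c 0) (D : ℤ) ∧
    ∀ n, u (n + k) = ∑ i ∈ Finset.range k, c i * u (n + i)

/-- `u` is smooth: for some step `M ≥ 1`, `D ^ (2 k)` divides all the `k`-th differences of `u` with step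
`M`, for every `k`. -/
def Smooth (D : ℕ) (u : ℕ → ℤ) : Prop :=
  ∃ M : ℕ, 1 ≤ M ∧ ∀ k n : ℕ,
    (D : ℤ) ^ (2 * k) ∣ ∑ j ∈ Finset.range (k + 1), (-1) ^ (k - j) * (k.choose j : ℤ) * u (n + j * M)

/-- `u` is constant on no arithmetic progression. -/
def NoConst (u : ℕ → ℤ) : Prop := ∀ a q : ℕ, 1 ≤ q → ∃ m, u (a + q * m) ≠ u a

/-- `|u n|` grows faster than every power of `n`. -/
def Fast (u : ℕ → ℤ) : Prop := ∀ A : ℝ, ∀ᶠ n : ℕ in atTop, (n : ℝ) ^ A ≤ |(u n : ℝ)|

/-- The family of sequences of integers `x i` is spread modulo the powers of `D` up to the exponent `c`: for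
every `η > 0` there are `δ, K > 0` such that, for all `i`, `N ≥ 1` and `D ^ T ≤ N ^ c`, any
`exp (-η T) D ^ T` classes modulo `D ^ T` contain together at most `K exp (-δ T) N` of the integers `x i n`,
`1 ≤ n ≤ N`. -/
def Spread (D : ℕ) (c : ℝ) {ι : Type} (x : ι → ℕ → ℤ) : Prop :=
  ∀ η : ℝ, 0 < η → ∃ δ K : ℝ, 0 < δ ∧ 0 < K ∧ ∀ (i : ι) (N T : ℕ), 1 ≤ N → (D : ℝ) ^ T ≤ (N : ℝ) ^ c →
    ∀ A : Finset ℤ, (A.card : ℝ) ≤ Real.exp (-(η * T)) * (D : ℝ) ^ T →
      (({n | 1 ≤ n ∧ n ≤ N ∧ ∃ a ∈ A, x i n ≡ a [ZMOD (D : ℤ) ^ T]} : Set ℕ).ncard : ℝ) ≤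
        K * Real.exp (-(δ * T)) * N

theorem ncard_le {N : ℕ} {P : ℕ → Prop} {K : ℝ}
    (h : ∀ A : Finset ℕ, A ⊆ Finset.Icc 1 N → (∀ n ∈ A, P n) → (A.card : ℝ) ≤ K) :
    (({n | 1 ≤ n ∧ n ≤ N ∧ P n} : Set ℕ).ncard : ℝ) ≤ K := by
  classical
  rw [Pool.Agent.U491.LR.ncard_eq]
  apply h _ (Finset.filter_subset _ _)
  intro n hn
  exact (Finset.mem_filter.1 hn).2

theorem kappa_eq (D : ℕ) : kappa D = Pool.Agent.Y927.GP.Mo.kap D (D + 1) := by
  unfold kappa Pool.Agent.Y927.GP.Mo.kap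
  push_cast
  rfl

theorem pow_fast {r : ℕ} (hr : 2 ≤ r) : Fast (fun n => ((r ^ n : ℕ) : ℤ)) := by
  intro A
  have hr1 : (1 : ℝ) < r := by exact_mod_cast hr
  have hr0 : (0 : ℝ) < r := by linarith
  have h1 : Tendsto (fun n : ℕ => (n : ℝ) ^ A / Real.exp (Real.log r * n)) atTop (nhds 0) :=
    (isLittleO_rpow_exp_pos_mul_atTop A (Real.log_pos hr1)).tendsto_div_nhds_zero.comp
      tendsto_natCast_atTop_atTop
  filter_upwards [h1.eventually_le_const (show (0 : ℝ) < 1 by norm_num)] with n hn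
  rw [div_le_one (Real.exp_pos _)] at hn
  have e1 : |(((r ^ n : ℕ) : ℤ) : ℝ)| = (r : ℝ) ^ n := by
    push_cast
    exact abs_of_pos (by positivity)
  have e2 : (r : ℝ) ^ n = Real.exp (Real.log r * n) := by
    rw [mul_comm, Real.exp_nat_mul, Real.exp_log hr0]
  rw [e1, e2]
  exact hn

/-- **Main theorem.** Let `D ≥ 2`. Then `κ, γ > 0`.
(1) Let the family of sequences of natural numbers `x i` be spread up to an exponent `c > 0`. There is `c' > 0`
such that for every `ε > 0` there are `δ, K > 0` such that for all `i` and `N ≥ 1`, all the `n ≤ N` but at most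
`K N^(1 - δ)` satisfy: `x i n > 0` and `|log F_D^(k)(x i n) - log (x i n) + γ k| ≤ ε c' log N` for all
`k ≤ (2 D - 1) c' log N / (D log D)`.
(2) In (1) one can take `c' = c` for the `n` with `x i n ≥ N^(c (κ + ε))`.
(3) Let `u` be smooth and grow faster than every power of `n`. For every `ε > 0` there are `δ, K > 0` such
that for all `X ≥ 0` and `N ≥ 1`, all the integers `n` in `(X, X + N]` but at most `K N^(1 - δ)` satisfy:
`u n > 0` and `|log F_D^(k)(u n) - log (u n) + γ k| ≤ ε log N` for all `k ≤ (2 D - 1) log N / (D log D)`.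
(4) Let `v` be smooth and constant on no arithmetic progression. The family of the sequences `v (X + n)`, `X ≥ 0`,
is spread up to the exponent `1`, and if the family `f` is spread up to the exponent `c > 0` then so is the
family of the `v (f i n)`. The primes are spread up to the exponent `1 / 2`.
(5) Linear recurrences with last coefficient prime to `D`, Newton series `∑ c_j n (n - 1) ... (n - j + 1)` and
sums and products of smooth sequences are smooth. The Fibonacci numbers and the powers `r ^ n` of any `r ≥ 2`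
prime to `D` are such recurrences and grow faster than every power; fast growing sequences are constant on no
arithmetic progression. -/
theorem result (D : ℕ) (hD : 2 ≤ D) :
    (0 < kappa D ∧ 0 < gamma D) ∧
    (∀ (ι : Type) (x : ι → ℕ → ℕ) (c : ℝ), 0 < c → Spread D c (fun i n => (x i n : ℤ)) →
      (∃ c' : ℝ, 0 < c' ∧ ∀ ε : ℝ, 0 < ε → ∃ δ K : ℝ, 0 < δ ∧ 0 < K ∧ ∀ (i : ι) (N : ℕ), 1 ≤ N →
        (({n | 1 ≤ n ∧ n ≤ N ∧ ¬ (0 < x i n ∧ Law D ε ((N : ℝ) ^ c') (x i n))} : Set ℕ).ncard : ℝ) ≤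
          K * (N : ℝ) ^ (1 - δ)) ∧
      (∀ ε : ℝ, 0 < ε → ∃ δ K : ℝ, 0 < δ ∧ 0 < K ∧ ∀ (i : ι) (N : ℕ), 1 ≤ N →
        (({n | 1 ≤ n ∧ n ≤ N ∧ (N : ℝ) ^ (c * (kappa D + ε)) ≤ (x i n : ℝ) ∧
          ¬ Law D ε ((N : ℝ) ^ c) (x i n)} : Set ℕ).ncard : ℝ) ≤ K * (N : ℝ) ^ (1 - δ))) ∧
    (∀ u : ℕ → ℕ, Smooth D (fun n => (u n : ℤ)) → Fast (fun n => (u n : ℤ)) → ∀ ε : ℝ, 0 < ε →
      ∃ δ K : ℝ, 0 < δ ∧ 0 < K ∧ ∀ X N : ℕ, 1 ≤ N →
        (({n | 1 ≤ n ∧ n ≤ N ∧ ¬ (0 < u (X + n) ∧ Law D ε N (u (X + n)))} : Set ℕ).ncard : ℝ) ≤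
          K * (N : ℝ) ^ (1 - δ)) ∧
    ((∀ v : ℕ → ℤ, Smooth D v → NoConst v →
        Spread D 1 (fun (X : ℕ) (n : ℕ) => v (X + n)) ∧
        ∀ (ι : Type) (f : ι → ℕ → ℕ) (c : ℝ), 0 < c → Spread D c (fun i n => (f i n : ℤ)) →
          Spread D c (fun i n => v (f i n))) ∧
      Spread D (1 / 2) (fun (_ : Unit) (n : ℕ) => ((Nat.nth Nat.Prime n : ℕ) : ℤ))) ∧
    ((∀ u : ℕ → ℤ, CoprimeRec D u → Smooth D u) ∧
      (∀ c : ℕ → ℤ, Smooth D (fun n => ∑ j ∈ Finset.range (n + 1), c j * (n.descFactorial j : ℤ))) ∧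
      (∀ u v : ℕ → ℤ, Smooth D u → Smooth D v →
        Smooth D (fun n => u n + v n) ∧ Smooth D (fun n => u n * v n)) ∧
      (CoprimeRec D (fun n => (Nat.fib n : ℤ)) ∧ Fast (fun n => (Nat.fib n : ℤ))) ∧
      (∀ r : ℕ, 2 ≤ r → r.Coprime D →
        CoprimeRec D (fun n => ((r ^ n : ℕ) : ℤ)) ∧ Fast (fun n => ((r ^ n : ℕ) : ℤ))) ∧
      (∀ u : ℕ → ℤ, Fast u → NoConst u)) := by
  classical
  have hD0 : 0 < D := by omega
  have hsp : ∀ {ι : Type} {c : ℝ} {x : ι → ℕ → ℤ}, Spread D c x ↔ Pool.Agent.U491.LR.Spr D c x :=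
    fun {ι c x} => Pool.Agent.U491.LR.spread_iff (x := x) hD0
  obtain ⟨hκ0, hκ1⟩ := Pool.Agent.Y927.GP.Mo.kap_bounds hD (show 2 ≤ D + 1 by omega)
    (Pool.Agent.U491.LR.Wi.cop D) (Pool.Agent.U491.LR.Wi.hle hD)
  rw [← kappa_eq] at hκ0
  refine ⟨⟨hκ0, ?_⟩, fun ι x c hc0 hx => ⟨?_, fun ε hε => ?_⟩, fun u hu hfast ε hε => ?_,
    ⟨fun v hv hne => ⟨?_, fun ι f c hc0 hf => ?_⟩, ?_⟩, ?_⟩
  · have hD1 : (2 : ℝ) ≤ D := by exact_mod_cast hD
    have hL : 0 < Real.log D := Real.log_pos (by linarith)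
    have e : gamma D = kappa D * (D * Real.log D) / (2 * D - 1) := by
      unfold gamma kappa
      congr 1
      field_simp
    rw [e]
    have h2 : (0 : ℝ) < 2 * D - 1 := by linarith
    have h3 : (0 : ℝ) < D * Real.log D := by positivity
    positivity
  · obtain ⟨c', hc', h⟩ := Pool.Agent.U491.LR.Wi.all hD hc0 (hsp.1 hx)
    refine ⟨c', hc', fun ε hε => ?_⟩
    obtain ⟨δ, K, hδ, hK, h⟩ := h ε hε
    refine ⟨δ, K, hδ, hK, fun i N hN => ?_⟩
    apply ncard_le (P := fun n => ¬ (0 < x i n ∧ Law D ε ((N : ℝ) ^ c') (x i n)))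
    intro A hA hbad
    exact h i N hN A hA hbad
  · obtain ⟨δ, K, hδ, hK, h⟩ := Pool.Agent.U491.LR.Wi.large hD hc0 (hsp.1 hx) hε
    refine ⟨δ, K, hδ, hK, fun i N hN => ?_⟩
    apply ncard_le (P := fun n => (N : ℝ) ^ (c * (kappa D + ε)) ≤ (x i n : ℝ) ∧
          ¬ Law D ε ((N : ℝ) ^ c) (x i n))
    intro A hA hbad
    rw [kappa_eq] at hbad
    exact h i N hN A hA hbad
  · obtain ⟨δ, K, hδ, hK, h⟩ := Pool.Agent.U491.LR.Wi.fast hD
      (Pool.Agent.U491.LR.Smooth.window (u := fun n => (u n : ℤ)) hD hu (Pool.Agent.U491.LR.Fast.noConst hfast)) hfast hε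
    refine ⟨δ, K, hδ, hK, fun X N hN => ?_⟩
    apply ncard_le (P := fun n => ¬ (0 < u (X + n) ∧ Law D ε N (u (X + n))))
    intro A hA hbad
    exact h X N hN A hA hbad
  · exact hsp.2 (Pool.Agent.U491.LR.Smooth.window hD hv hne)
  · exact hsp.2 (Pool.Agent.U491.LR.Smooth.comp hD hv hne (hsp.1 hf))
  · exact hsp.2 (Pool.Agent.U491.LR.spr_prime hD)
  · exact ⟨fun u hu => Pool.Agent.U491.LR.CoRec.smooth hD hu,
      fun c => Pool.Agent.U491.LR.newton_smooth (by omega) c,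
      fun u v hu hv => ⟨Pool.Agent.U491.LR.Smooth.add hu hv, Pool.Agent.U491.LR.Smooth.mul hu hv⟩,
      ⟨Pool.Agent.U491.LR.fib_coRec D, Pool.Agent.U491.LR.fib_fast⟩,
      fun r hr hc => ⟨Pool.Agent.U491.LR.pow_coRec hc, pow_fast hr⟩,
      fun u hu => Pool.Agent.U491.LR.Fast.noConst hu⟩

end Pool.Agent.Results.MP_5317dd_nt.LawOfGrowth
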