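import Mathlib
import Pool.Agent.U496.WG.Main

/-!
# Wiggin's conjecture for the orbits whose residues are predicted by a pushdown machine with few errors

A deterministic pushdown machine (finitely many states, an unbounded stack, silent moves) reads the residues modulo `D` of
the orbit of `x` under Wiggin's map `F_D` and predicts the next one. If it makes few errors (less than `c log N` on the first
`N` residues, for arbitrarily large `N`), then the orbit of `x` runs into a cycle of bounded length, through an integer which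
is bounded by a power of `D` whose exponent depends on the machine only. So Wiggin's conjecture for all these `x` and a given
`D` is a question on finitely many integers.

Proof. (1) `U496.PS.transfer`: for every machine `M` and alphabet size `B` there are a distance `ρ` and `K` such that the
residues have at most `K (cost + 1)` changes at the distance `ρ`. If `K ^ (cost + 1) (l + 1) ≤ N`, one of the windows
`[A ^ j (l + 1), A ^ (j + 1) (l + 1))` has no change. (2) Two integers whose orbits have the same residues for `L` steps are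
congruent modulo `D ^ (L / 2)` (`agree`), while the `n`-th iterate is at most `(D + 2) ^ n x`. So on such a window the orbit
is periodic (`arrive`). (3) The points of cycles of length `ρ` are at most `(2 (D + 1)) ^ (ρ + 1)` (`periodic_le`).
-/

set_option autoImplicit false

namespace Pool.Agent.Results.MP_5317dd_nt.PushdownPredictable

open Finset
open Pool.Agent.U364.PD (Machine errors)
open Pool.Agent.U496.WG (F residues cost)

/-- `n` descends below `D` -/
def Descends (D n : ℕ) : Prop := ∃ k : ℕ, (F D)^[k] n < D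

/-- **Theorem.** Let `M` be a deterministic pushdown machine with finitely many states and stack symbols (silent moves are
allowed), and `B` a natural number. There are `K`, `ρ ≥ 1` and `c > 0`, depending on `M` and `B` only, such that for all
`D ≥ 2` and all `x ≥ 1`:
(1) for all sequences `a` of integers in `[0, B)`, all maps `φ`, all initial states, all initial stacks and all `N`: if
`K ^ (cost + 1) (l + 1) ≤ N`, where `x ≤ 2 ^ l`, then within `N` steps the orbit of `x` is at an integer `y` with
`F_D^ρ(y) = y` and `y ≤ (2 (D + 1)) ^ (ρ + 1)`;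
(2) if for arbitrarily large `N` there are such a sequence `a`, a map `φ`, an initial state and an initial stack for which the
cost is at most `c log N`, then the orbit of `x` contains such an integer `y`; hence it is bounded, and if all the integers
from `1` to `(2 (D + 1)) ^ (ρ + 1)` descend below `D`, then so does `x`. -/
theorem result {Q Γ : Type} [Finite Q] [Finite Γ] (M : Machine Q Γ) (B : ℕ) :
    ∃ (K ρ : ℕ) (c : ℝ), 1 ≤ ρ ∧ 0 < c ∧ ∀ D x : ℕ, 2 ≤ D → 1 ≤ x →
      (∀ l : ℕ, x ≤ 2 ^ l → ∀ a : ℕ → ℤ, (∀ n, 0 ≤ a n ∧ a n < B) →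
        ∀ (φ : ℤ → ℤ) (q₀ : Q) (s₀ : List Γ) (N : ℕ), K ^ (cost M D x a φ q₀ s₀ N + 1) * (l + 1) ≤ N →
          ∃ m, m ≤ N ∧ (F D)^[ρ] ((F D)^[m] x) = (F D)^[m] x ∧ (F D)^[m] x ≤ (2 * (D + 1)) ^ (ρ + 1)) ∧
      ((∀ N₀ : ℕ, ∃ N : ℕ, N₀ ≤ N ∧ ∃ a : ℕ → ℤ, (∀ n, 0 ≤ a n ∧ a n < B) ∧
          ∃ (φ : ℤ → ℤ) (q₀ : Q) (s₀ : List Γ), (cost M D x a φ q₀ s₀ N : ℝ) ≤ c * Real.log N) →
        (∃ m, (F D)^[ρ] ((F D)^[m] x) = (F D)^[m] x ∧ (F D)^[m] x ≤ (2 * (D + 1)) ^ (ρ + 1)) ∧
        ((∀ n, 1 ≤ n → n ≤ (2 * (D + 1)) ^ (ρ + 1) → Descends D n) → Descends D x)) := by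
  obtain ⟨K, ρ, hK, hρ, h⟩ := Pool.Agent.U496.WG.main M B
  have hlogK : 0 < Real.log K := Real.log_pos (by exact_mod_cast (by omega : 1 < K))
  refine ⟨K, ρ, 1 / (2 * Real.log K), hρ, by positivity, fun D x hD hx => ⟨fun l hl => h D x l hD hx hl, ?_⟩⟩
  intro hfew
  obtain ⟨N, hN, a, ha, φ, q₀, s₀, hc⟩ := hfew ((K * (x + 1)) ^ 2)
  have hxl : x ≤ 2 ^ x := Nat.lt_two_pow_self.le
  obtain ⟨m, -, hm1, hm2⟩ := h D x x hD hx hxl a ha φ q₀ s₀ N (Pool.Agent.U496.WG.log_form K x hK N _ hN hc)
  refine ⟨⟨m, hm1, hm2⟩, fun hdesc => ?_⟩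
  obtain ⟨k, hk⟩ := hdesc _ (Pool.Agent.U496.WG.iter_pos hD hx m) hm2
  refine ⟨k + m, ?_⟩
  rw [Function.iterate_add_apply]
  exact hk

end Pool.Agent.Results.MP_5317dd_nt.PushdownPredictable
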